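import Pool.Agent.Q176.EP.Prob

/-!
# Project EP (helper255), job ENGL: the engine with log powers
-/

set_option autoImplicit false

namespace Pool.Agent.Q176.EP

open Filter Topology MeasureTheory Pool.Agent.Q255.IC Pool.Agent.Q255.IR Pool.Agent.Q255.EP Pool.Agent.Q190.EP
open scoped ENNReal

/-- the weights of the large primes are small -/
theorem Kv_le {b J k : ℕ} (hJ : 8 ≤ i0 J + 1) (hk : 2 ^ i0 J < pr k) :
    Kv (17 + 2 * b) J (blk k) ≤ pr k * (1 / ((i0 J : ℝ) + 1) ^ (2 * b)) := by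
  obtain ⟨h1, h2⟩ := blk_spec k
  have h3 : i0 J < blk k + 1 := (Nat.pow_lt_pow_iff_right (by norm_num : 1 < 2)).1 (by omega)
  have h4 : i0 J ≤ blk k := by omega
  set i := blk k with hi
  have h5 : Kv (17 + 2 * b) J i = 8 * (2 ^ i * ((J : ℝ) + 1) ^ 4 / ((i : ℝ) + 1) ^ (17 + 2 * b)) := by
    unfold Kv Lv
    rw [if_neg (by omega), if_neg (by omega), pow_succ]
    ring
  have h6 : (2 : ℝ) ^ i ≤ pr k := by exact_mod_cast h1.le
  have h7 : ((J : ℝ) + 1) ≤ ((i0 J : ℝ) + 1) ^ 4 := by exact_mod_cast lt_i0_pow J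
  have h8 : (i0 J : ℝ) ≤ i := by exact_mod_cast h4
  have h9 : (8 : ℝ) ≤ (i0 J : ℝ) + 1 := by exact_mod_cast hJ
  have h10 : (0 : ℝ) ≤ i0 J := Nat.cast_nonneg _
  have hpr : (0 : ℝ) ≤ pr k := (pr_pos k).le
  rw [h5]
  calc 8 * (2 ^ i * ((J : ℝ) + 1) ^ 4 / ((i : ℝ) + 1) ^ (17 + 2 * b))
      ≤ 8 * (pr k * ((i : ℝ) + 1) ^ 16 / ((i : ℝ) + 1) ^ (17 + 2 * b)) := by
        gcongr
        calc ((J : ℝ) + 1) ^ 4 ≤ (((i0 J : ℝ) + 1) ^ 4) ^ 4 := by gcongr
          _ ≤ (((i : ℝ) + 1) ^ 4) ^ 4 := by gcongr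
          _ = ((i : ℝ) + 1) ^ 16 := by ring
    _ = 8 * (pr k * (1 / (((i : ℝ) + 1) * ((i : ℝ) + 1) ^ (2 * b)))) := by
        have h11 : ((i : ℝ) + 1) ^ (17 + 2 * b) = ((i : ℝ) + 1) ^ 16 * (((i : ℝ) + 1) * ((i : ℝ) + 1) ^ (2 * b)) := by
          ring
        have h12 : (0 : ℝ) < (i : ℝ) + 1 := by positivity
        rw [h11]
        field_simp
    _ ≤ 8 * (pr k * (1 / (8 * ((i0 J : ℝ) + 1) ^ (2 * b)))) := by
        gcongr
        linarith
    _ = _ := by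
        have h12 : (0 : ℝ) < ((i0 J : ℝ) + 1) ^ (2 * b) := by positivity
        field_simp

theorem sm_eq (J : ℕ) : sm (NN J) (2 ^ J) = (Finset.Icc 1 (2 ^ J)).filter Squarefree := by
  ext m
  rw [Pool.Agent.Q13.EP.mem_sm, Finset.mem_filter, Finset.mem_Icc]
  constructor
  · rintro ⟨⟨h1, h2⟩, h3, _⟩
    exact ⟨⟨h1, h2⟩, h3⟩
  · rintro ⟨⟨h1, h2⟩, h3⟩
    refine ⟨⟨h1, h2⟩, h3, ?_⟩
    intro p hp
    have hp' := Nat.le_of_dvd (by omega) (Nat.dvd_of_mem_primeFactors hp)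
    exact Pool.Agent.Q13.EP.lt_pr_primeCounting (hp'.trans h2)

open Classical in
/-- the function restricted to the rough numbers -/
noncomputable def gr (y a : ℕ) (w : ℕ → ℝ) : ℕ → ℝ := fun m => if Rough y m then w (a * m) else 0

theorem rough_bound {b J : ℕ} (hJ : 8 ≤ i0 J + 1) {W : Finset (ℕ → ℝ)} {ω : ℕ → Bool}
    (hW1 : ∀ w ∈ W, ∀ m, |w m| ≤ 1) (hW0 : ∀ w ∈ W, ∀ m, 2 ^ J < m → w m = 0)
    (hG : Good ω (2 ^ J) (fun k => Kv (17 + 2 * b) J (blk k)) NN (Lv (17 + 2 * b) J) J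
      (TT (WR (2 ^ i0 J) (2 ^ J) W))) {w : ℕ → ℝ} (hw : w ∈ W) {a : ℕ} (ha : 1 ≤ a) (haX : a ≤ 2 ^ J) :
    |Sq ω (NN J) (2 ^ J) (gr (2 ^ i0 J) a w)| ≤ 2 * (1 + 2 ^ J * ((a : ℝ))⁻¹ * (1 / ((i0 J : ℝ) + 1) ^ b)) := by
  classical
  have ha0 : (0 : ℝ) < a := by exact_mod_cast ha
  set y := 2 ^ i0 J with hy
  set g := gr y a w with hg
  have hgW : g ∈ WR y (2 ^ J) W := by
    rw [mem_WR]
    refine ⟨w, hw, a, ha, haX, ?_, ?_⟩
    · intro m hm
      rw [hg]
      unfold gr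
      rw [if_pos hm]
    · intro m hm
      rw [hg]
      unfold gr
      rw [if_neg hm]
  have hgT : g ∈ TT (WR y (2 ^ J) W) := ⟨g, hgW, 1, le_rfl, by simp⟩
  set κ : ℕ → ℝ := fun k => Kv (17 + 2 * b) J (blk k) with hκ
  have hκ0 : ∀ k, 0 ≤ κ k := fun k => (Kv_pos _ _ _).le
  have h1 := det Pool.Agent.Q13.EP.t_REC ω (2 ^ J) κ (Kv (17 + 2 * b) J) NN (Lv (17 + 2 * b) J) J
    (TT (WR y (2 ^ J) W)) Nat.one_le_two_pow NN_zero NN_mono (fun i => Kv_pos _ _ _) (fun i => Lv_nonneg _ _ _)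
    (fun i k h1 h2 => by rw [hκ]; simp only; rw [blk_eq h1 h2]) hκ0 (sum_LvKv _ J)
    (fun g hg r hr => TT_dil hg hr) (fun g hg m hm => TT_zero (WR_zero hW0) hg hm) hG g hgT (NN J) le_rfl
  set q : ℝ := 1 / ((i0 J : ℝ) + 1) ^ (2 * b) with hq
  have hi1 : (1 : ℝ) ≤ (i0 J : ℝ) + 1 := by
    have := (Nat.cast_nonneg (i0 J) : (0 : ℝ) ≤ i0 J)
    linarith
  have hq0 : 0 ≤ q := by positivity
  have hq1 : q ≤ 1 := by
    rw [hq, div_le_one (by positivity)]
    exact one_le_pow₀ hi1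
  have hterm : ∀ m ∈ sm (NN J) (2 ^ J), g m ^ 2 * ∏ p ∈ m.primeFactors, κ (Nat.count Nat.Prime p) ≤
      (if m = 1 then 1 else 0) + (if m ≤ 2 ^ J / a then m * q else 0) := by
    intro m hm
    have hr0 : (0 : ℝ) ≤ (if m ≤ 2 ^ J / a then m * q else 0) := by
      split_ifs
      · positivity
      · exact le_rfl
    rcases eq_or_ne m 1 with rfl | hm1
    · simp only [if_true, Nat.primeFactors_one, Finset.prod_empty, mul_one]
      have h3 : g 1 ^ 2 ≤ 1 := by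
        rw [← sq_abs]
        refine pow_le_one₀ (abs_nonneg _) ?_
        rw [hg]
        unfold gr
        split_ifs
        · exact hW1 w hw _
        · simp
      linarith
    · rw [if_neg hm1, zero_add]
      by_cases hR : Rough y m
      · have hg1 : g m = w (a * m) := by
          rw [hg]
          unfold gr
          rw [if_pos hR]
        by_cases hM : m ≤ 2 ^ J / a
        · rw [if_pos hM]
          have h3 : g m ^ 2 ≤ 1 := by
            rw [← sq_abs]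
            refine pow_le_one₀ (abs_nonneg _) ?_
            rw [hg1]
            exact hW1 w hw _
          have hmem := Pool.Agent.Q13.EP.mem_sm.1 hm
          have h4 : ∏ p ∈ m.primeFactors, κ (Nat.count Nat.Prime p) ≤ m * q := by
            calc ∏ p ∈ m.primeFactors, κ (Nat.count Nat.Prime p) ≤ ∏ p ∈ m.primeFactors, ((p : ℝ) * q) := by
                  refine Finset.prod_le_prod (fun p _ => hκ0 _) (fun p hp => ?_)
                  have hpp := Nat.prime_of_mem_primeFactors hp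
                  have hpd := Nat.dvd_of_mem_primeFactors hp
                  have h5 := Pool.Agent.Q13.EP.pr_count hpp
                  have h6 := Kv_le (b := b) (k := Nat.count Nat.Prime p) hJ (by rw [h5]; exact hR p hpp hpd)
                  rw [h5] at h6
                  exact h6
              _ = (∏ p ∈ m.primeFactors, (p : ℝ)) * q ^ m.primeFactors.card := by
                  rw [Finset.prod_mul_distrib, Finset.prod_const]
              _ = m * q ^ m.primeFactors.card := by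
                  have h7 := Nat.prod_primeFactors_of_squarefree hmem.2.1
                  have h8 : (∏ p ∈ m.primeFactors, (p : ℝ)) = m := by
                    conv_rhs => rw [← h7]
                    push_cast
                    rfl
                  rw [h8]
              _ ≤ m * q := by
                  refine mul_le_mul_of_nonneg_left ?_ (Nat.cast_nonneg m)
                  refine pow_le_of_le_one hq0 hq1 ?_
                  have : m.primeFactors.Nonempty := Nat.nonempty_primeFactors.2 (by omega)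
                  exact this.card_pos.ne'
          have h5 : 0 ≤ ∏ p ∈ m.primeFactors, κ (Nat.count Nat.Prime p) := Finset.prod_nonneg fun p _ => hκ0 _
          nlinarith
        · rw [if_neg hM]
          have h3 : 2 ^ J < a * m := by
            push Not at hM
            rw [mul_comm]
            exact (Nat.div_lt_iff_lt_mul (by omega)).1 hM
          rw [hg1, hW0 w hw _ h3]
          simp
      · have hg1 : g m = 0 := by
          rw [hg]
          unfold gr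
          rw [if_neg hR]
        rw [hg1]
        simpa using hr0
  have h2 : Nq κ (NN J) (2 ^ J) g ≤ 1 + q * (2 ^ J * ((a : ℝ))⁻¹) ^ 2 := by
    unfold Nq
    refine (Finset.sum_le_sum hterm).trans ?_
    rw [Finset.sum_add_distrib]
    have h3 : ∑ m ∈ sm (NN J) (2 ^ J), (if m = 1 then (1 : ℝ) else 0) ≤ 1 := by
      rw [Finset.sum_ite_eq']
      split_ifs
      · exact le_rfl
      · exact zero_le_one
    have h4 : ∑ m ∈ sm (NN J) (2 ^ J), (if m ≤ 2 ^ J / a then (m : ℝ) * q else 0) ≤ q * (2 ^ J * ((a : ℝ))⁻¹) ^ 2 := by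
      set M := 2 ^ J / a with hM
      have hM' : (M : ℝ) ≤ 2 ^ J * ((a : ℝ))⁻¹ := by
        have := @Nat.cast_div_le ℝ _ _ _ (2 ^ J) a
        push_cast at this
        rw [← div_eq_mul_inv]
        exact this
      calc ∑ m ∈ sm (NN J) (2 ^ J), (if m ≤ M then (m : ℝ) * q else 0)
          = ∑ m ∈ (sm (NN J) (2 ^ J)).filter (fun m => m ≤ M), (m : ℝ) * q := (Finset.sum_filter _ _).symm
        _ ≤ ∑ m ∈ Finset.Icc 1 M, (m : ℝ) * q := by
            refine Finset.sum_le_sum_of_subset_of_nonneg ?_ (fun _ _ _ => by positivity)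
            intro m hm
            rw [Finset.mem_filter, Pool.Agent.Q13.EP.mem_sm] at hm
            exact Finset.mem_Icc.2 ⟨hm.1.1.1, hm.2⟩
        _ ≤ ∑ m ∈ Finset.Icc 1 M, (M : ℝ) * q := by
            refine Finset.sum_le_sum fun m hm => ?_
            rw [Finset.mem_Icc] at hm
            have : (m : ℝ) ≤ M := by exact_mod_cast hm.2
            exact mul_le_mul_of_nonneg_right this hq0
        _ = q * (M : ℝ) ^ 2 := by
            rw [Finset.sum_const, Nat.card_Icc, nsmul_eq_mul]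
            simp
            ring
        _ ≤ _ := by
            gcongr
    linarith
  set t : ℝ := 2 ^ J * ((a : ℝ))⁻¹ with ht
  have ht0 : 0 ≤ t := by positivity
  have hq2 : q = (1 / ((i0 J : ℝ) + 1) ^ b) ^ 2 := by
    rw [hq, div_pow, one_pow, ← pow_mul, mul_comm b 2]
  set r : ℝ := 1 / ((i0 J : ℝ) + 1) ^ b with hr
  have hr0 : 0 ≤ r := by positivity
  refine abs_le_of_sq_le_sq ?_ (by positivity)
  rw [hq2] at h2
  have h5 : 0 ≤ t * r := mul_nonneg ht0 hr0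
  nlinarith

open Classical in
/-- the inner sum over the rough part -/
theorem inner_sum {J : ℕ} {ω : ℕ → Bool} (w : ℕ → ℝ) {y a : ℕ} (ha : 1 ≤ a) (haS : Smooth y a) :
    ∑ b ∈ (Finset.Icc 1 (2 ^ J)).filter (Rough y),
      (if ∃ p : ℕ, p.Prime ∧ y < p ∧ p ^ 2 ∣ a * b then 0 else w (a * b)) * cm ω (a * b) =
      cm ω a * Sq ω (NN J) (2 ^ J) (gr y a w) := by
  unfold Sq
  rw [sm_eq, Finset.mul_sum, Finset.sum_filter, Finset.sum_filter]
  refine Finset.sum_congr rfl fun m hm => ?_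
  rw [Finset.mem_Icc] at hm
  by_cases hR : Rough y m
  · rw [if_pos hR]
    have hg : gr y a w m = w (a * m) := by
      unfold gr
      rw [if_pos hR]
    by_cases hs : Squarefree m
    · rw [if_pos hs, if_neg, hg, Pool.Agent.Q13.EP.cm_mul ω (by omega) (by omega)]
      · ring
      · rintro ⟨p, hp, hyp, hpd⟩
        have h1 : Nat.Coprime (p ^ 2) a := by
          refine Nat.Coprime.pow_left 2 ?_
          rw [Nat.Prime.coprime_iff_not_dvd hp]
          intro h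
          have := haS p hp h
          omega
        have h2 : p ^ 2 ∣ m := Nat.Coprime.dvd_of_dvd_mul_left h1 hpd
        have h3 := (Nat.squarefree_iff_prime_squarefree.1 hs) p hp
        exact h3 (by rw [← pow_two]; exact h2)
    · rw [if_neg hs, if_pos, zero_mul]
      rw [Nat.squarefree_iff_prime_squarefree] at hs
      push Not at hs
      obtain ⟨p, hp, hpd⟩ := hs
      have h1 : p ∣ m := (dvd_mul_right p p).trans hpd
      refine ⟨p, hp, hR p hp h1, ?_⟩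
      rw [pow_two]
      exact Dvd.dvd.mul_left hpd a
  · have hg : gr y a w m = 0 := by
      unfold gr
      rw [if_neg hR]
    rw [if_neg hR, hg]
    split_ifs <;> simp

/-- the trivial bound for the inner sum -/
theorem inner_triv {J : ℕ} {ω : ℕ → Bool} {w : ℕ → ℝ} (hw1 : ∀ m, |w m| ≤ 1) (hw0 : ∀ m, 2 ^ J < m → w m = 0)
    (y : ℕ) {a : ℕ} (ha : 1 ≤ a) :
    |Sq ω (NN J) (2 ^ J) (gr y a w)| ≤ 2 ^ J * ((a : ℝ))⁻¹ := by
  classical
  have ha0 : (0 : ℝ) < a := by exact_mod_cast ha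
  unfold Sq
  refine (Finset.abs_sum_le_sum_abs _ _).trans ?_
  have h1 : ∀ m ∈ sm (NN J) (2 ^ J), |gr y a w m * cm ω m| ≤ if m ≤ 2 ^ J / a then 1 else 0 := by
    intro m _
    rw [abs_mul, Pool.Agent.Q13.EP.abs_cm, mul_one]
    unfold gr
    by_cases hM : m ≤ 2 ^ J / a
    · rw [if_pos hM]
      split_ifs
      · exact hw1 _
      · simp
    · rw [if_neg hM]
      have h3 : 2 ^ J < a * m := by
        push Not at hM
        rw [mul_comm]
        exact (Nat.div_lt_iff_lt_mul (by omega)).1 hM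
      split_ifs
      · rw [hw0 _ h3]
        simp
      · simp
  refine (Finset.sum_le_sum h1).trans ?_
  rw [← Finset.sum_filter, Finset.sum_const, nsmul_eq_mul, mul_one]
  have h2 : ((sm (NN J) (2 ^ J)).filter (fun m => m ≤ 2 ^ J / a)).card ≤ 2 ^ J / a := by
    have h3 : (sm (NN J) (2 ^ J)).filter (fun m => m ≤ 2 ^ J / a) ⊆ Finset.Icc 1 (2 ^ J / a) := by
      intro m hm
      rw [Finset.mem_filter, Pool.Agent.Q13.EP.mem_sm] at hm
      exact Finset.mem_Icc.2 ⟨hm.1.1.1, hm.2⟩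
    have := Finset.card_le_card h3
    rwa [Nat.card_Icc, Nat.add_sub_cancel] at this
  have h3 : (((sm (NN J) (2 ^ J)).filter (fun m => m ≤ 2 ^ J / a)).card : ℝ) ≤ ((2 ^ J / a : ℕ) : ℝ) := by
    exact_mod_cast h2
  refine h3.trans ?_
  have := @Nat.cast_div_le ℝ _ _ _ (2 ^ J) a
  push_cast at this
  rw [← div_eq_mul_inv]
  exact this

theorem good_le {b J : ℕ} (hJ : 10 ≤ i0 J) {W : Finset (ℕ → ℝ)} {ω : ℕ → Bool}
    (hW1 : ∀ w ∈ W, ∀ m, |w m| ≤ 1) (hW0 : ∀ w ∈ W, ∀ m, 2 ^ J < m → w m = 0)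
    (hG : Good ω (2 ^ J) (fun k => Kv (17 + 2 * b) J (blk k)) NN (Lv (17 + 2 * b) J) J
      (TT (WR (2 ^ i0 J) (2 ^ J) W))) {w : ℕ → ℝ} (hw : w ∈ W) :
    |∑ m ∈ Finset.Icc 1 (2 ^ J), w m * cm ω m| ≤
      2 * 2 ^ J / (2 ^ i0 J + 1) + 2 * 2 ^ (i0 J ^ 3) + 2 * (2 ^ J * ((J : ℝ) + 1) * (1 / ((i0 J : ℝ) + 1) ^ b)) +
        2 ^ J * (Real.exp (6 + 6 * i0 J) / 2 ^ (i0 J ^ 2)) := by
  classical
  set i := i0 J with hi
  set y := 2 ^ i with hy
  set w' : ℕ → ℝ := fun n => if ∃ p : ℕ, p.Prime ∧ y < p ∧ p ^ 2 ∣ n then 0 else w n with hw'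
  have hw0 := hW0 w hw
  have hw1 := hW1 w hw
  -- the numbers with a large square divisor
  have hA : |∑ m ∈ Finset.Icc 1 (2 ^ J), w m * cm ω m - ∑ m ∈ Finset.Icc 1 (2 ^ J), w' m * cm ω m| ≤
      2 * 2 ^ J / (2 ^ i + 1) := by
    rw [← Finset.sum_sub_distrib]
    refine (Finset.abs_sum_le_sum_abs _ _).trans ?_
    have h1 : ∀ m ∈ Finset.Icc 1 (2 ^ J), |w m * cm ω m - w' m * cm ω m| ≤
        if ∃ p : ℕ, y < p ∧ p ^ 2 ∣ m then 1 else 0 := by
      intro m _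
      rw [← sub_mul, abs_mul, Pool.Agent.Q13.EP.abs_cm, mul_one]
      simp only [hw']
      by_cases h : ∃ p : ℕ, p.Prime ∧ y < p ∧ p ^ 2 ∣ m
      · obtain ⟨p, hp⟩ := h
        rw [if_pos ⟨p, hp⟩, if_pos ⟨p, hp.2⟩, sub_zero]
        exact hw1 m
      · rw [if_neg h, sub_self, abs_zero]
        split_ifs
        · exact zero_le_one
        · exact le_rfl
    refine (Finset.sum_le_sum h1).trans ?_
    rw [← Finset.sum_filter, Finset.sum_const, nsmul_eq_mul, mul_one]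
    have h2 := sq_count y (2 ^ J)
    rw [hy] at h2
    push_cast at h2
    exact h2
  -- the decomposition
  have hB : ∑ m ∈ Finset.Icc 1 (2 ^ J), w' m * cm ω m =
      ∑ a ∈ (Finset.Icc 1 (2 ^ J)).filter (Smooth y), cm ω a * Sq ω (NN J) (2 ^ J) (gr y a w) := by
    rw [sum_dec y (2 ^ J) (fun m => w' m * cm ω m) (fun n hn => by
      simp only [hw']
      rw [hw0 n hn]
      simp)]
    refine Finset.sum_congr rfl fun a ha => ?_
    rw [Finset.mem_filter, Finset.mem_Icc] at ha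
    exact inner_sum w ha.1.1 ha.2
  set S1 := ((Finset.Icc 1 (2 ^ J)).filter (Smooth y)).filter (fun a => a ≤ 2 ^ (i ^ 3)) with hS1
  set S2 := ((Finset.Icc 1 (2 ^ J)).filter (Smooth y)).filter (fun a => ¬ a ≤ 2 ^ (i ^ 3)) with hS2
  have hC : |∑ m ∈ Finset.Icc 1 (2 ^ J), w' m * cm ω m| ≤
      ∑ a ∈ S1, |Sq ω (NN J) (2 ^ J) (gr y a w)| + ∑ a ∈ S2, |Sq ω (NN J) (2 ^ J) (gr y a w)| := by
    rw [hB, hS1, hS2, Finset.sum_filter_add_sum_filter_not]
    refine (Finset.abs_sum_le_sum_abs _ _).trans (le_of_eq ?_)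
    refine Finset.sum_congr rfl fun a _ => ?_
    rw [abs_mul, Pool.Agent.Q13.EP.abs_cm, one_mul]
  have hD1 : ∑ a ∈ S1, |Sq ω (NN J) (2 ^ J) (gr y a w)| ≤
      2 * 2 ^ (i ^ 3) + 2 * (2 ^ J * ((J : ℝ) + 1) * (1 / ((i : ℝ) + 1) ^ b)) := by
    have h1 : ∀ a ∈ S1, |Sq ω (NN J) (2 ^ J) (gr y a w)| ≤
        2 + 2 * (2 ^ J * (1 / ((i : ℝ) + 1) ^ b)) * (((a : ℕ) : ℝ))⁻¹ := by
      intro a ha
      rw [hS1, Finset.mem_filter, Finset.mem_filter, Finset.mem_Icc] at ha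
      refine (rough_bound (b := b) (by omega) hW1 hW0 hG hw ha.1.1.1 ha.1.1.2).trans (le_of_eq ?_)
      ring
    refine (Finset.sum_le_sum h1).trans ?_
    rw [Finset.sum_add_distrib, Finset.sum_const, nsmul_eq_mul, ← Finset.mul_sum]
    have h2 : (S1.card : ℝ) ≤ 2 ^ (i ^ 3) := by
      have h3 : S1 ⊆ Finset.Icc 1 (2 ^ (i ^ 3)) := by
        intro a ha
        rw [hS1, Finset.mem_filter, Finset.mem_filter, Finset.mem_Icc] at ha
        exact Finset.mem_Icc.2 ⟨ha.1.1.1, ha.2⟩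
      have h4 := Finset.card_le_card h3
      rw [Nat.card_Icc, Nat.add_sub_cancel] at h4
      exact_mod_cast h4
    have h3 : ∑ a ∈ S1, (((a : ℕ) : ℝ))⁻¹ ≤ (J : ℝ) + 1 := by
      have h4 : ∑ a ∈ S1, (((a : ℕ) : ℝ))⁻¹ ≤ ∑ a ∈ Finset.Icc 1 (2 ^ J), (((a : ℕ) : ℝ))⁻¹ := by
        refine Finset.sum_le_sum_of_subset_of_nonneg ?_ (fun _ _ _ => by positivity)
        intro a ha
        rw [hS1, Finset.mem_filter, Finset.mem_filter] at ha
        exact ha.1.1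
      have h5 := harm (2 ^ J)
      have h6 : Real.log ((2 ^ J : ℕ) : ℝ) ≤ J := by
        push_cast
        rw [Real.log_pow]
        have := Real.log_two_lt_d9
        nlinarith [(Nat.cast_nonneg J : (0 : ℝ) ≤ J)]
      linarith
    have h4 : (0 : ℝ) ≤ 2 * (2 ^ J * (1 / ((i : ℝ) + 1) ^ b)) := by positivity
    have h5 := mul_le_mul_of_nonneg_left h3 h4
    linarith
  have hD2 : ∑ a ∈ S2, |Sq ω (NN J) (2 ^ J) (gr y a w)| ≤ 2 ^ J * (Real.exp (6 + 6 * i) / 2 ^ (i ^ 2)) := by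
    have h1 : ∀ a ∈ S2, |Sq ω (NN J) (2 ^ J) (gr y a w)| ≤ 2 ^ J * (((a : ℕ) : ℝ))⁻¹ := by
      intro a ha
      rw [hS2, Finset.mem_filter, Finset.mem_filter, Finset.mem_Icc] at ha
      exact inner_triv hw1 hw0 y ha.1.1.1
    refine (Finset.sum_le_sum h1).trans ?_
    rw [← Finset.mul_sum]
    refine mul_le_mul_of_nonneg_left ?_ (by positivity)
    refine smooth_tail i (by omega) S2 ?_
    intro a ha
    rw [hS2, Finset.mem_filter, Finset.mem_filter, Finset.mem_Icc] at ha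
    exact ⟨by omega, ha.1.2, not_le.1 ha.2⟩
  have h1 : |∑ m ∈ Finset.Icc 1 (2 ^ J), w m * cm ω m| ≤
      |∑ m ∈ Finset.Icc 1 (2 ^ J), w m * cm ω m - ∑ m ∈ Finset.Icc 1 (2 ^ J), w' m * cm ω m| +
        |∑ m ∈ Finset.Icc 1 (2 ^ J), w' m * cm ω m| := by
    have := abs_add_le (∑ m ∈ Finset.Icc 1 (2 ^ J), w m * cm ω m - ∑ m ∈ Finset.Icc 1 (2 ^ J), w' m * cm ω m)
      (∑ m ∈ Finset.Icc 1 (2 ^ J), w' m * cm ω m)
    rwa [sub_add_cancel] at this
  linarith

theorem i0_ge {J : ℕ} (hJ : 10000 ≤ J) : 10 ≤ i0 J := by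
  unfold i0
  rw [Nat.le_sqrt', Nat.le_sqrt']
  norm_num
  exact hJ

theorem final_le (K : ℕ) : ∃ C : ℝ, 0 < C ∧ ∀ J : ℕ, 10 ≤ i0 J →
    2 * 2 ^ J / (2 ^ i0 J + 1) + 2 * 2 ^ (i0 J ^ 3) +
      2 * (2 ^ J * ((J : ℝ) + 1) * (1 / ((i0 J : ℝ) + 1) ^ (4 * (K + 1)))) +
        2 ^ J * (Real.exp (6 + 6 * i0 J) / 2 ^ (i0 J ^ 2)) ≤ C * 2 ^ J / ((J : ℝ) + 1) ^ K := by
  obtain ⟨C, hC0, hC⟩ := pow_le_two_pow (4 * K)
  refine ⟨(4 + Real.exp 6) * C + 2, by positivity, fun J hJ => ?_⟩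
  set i := i0 J with hi
  have hJ1 : (0 : ℝ) < (J : ℝ) + 1 := by positivity
  have hJi : ((J : ℝ) + 1) ≤ ((i : ℝ) + 1) ^ 4 := by exact_mod_cast lt_i0_pow J
  have h1 : 1 / ((i : ℝ) + 1) ^ (4 * K) ≤ 1 / ((J : ℝ) + 1) ^ K := by
    rw [pow_mul]
    gcongr
  have h2 : 1 / (2 : ℝ) ^ i ≤ C * (1 / ((J : ℝ) + 1) ^ K) := by
    have h3 : 1 / (2 : ℝ) ^ i ≤ C * (1 / ((i : ℝ) + 1) ^ (4 * K)) := by
      rw [mul_one_div, div_le_div_iff₀ (by positivity) (by positivity)]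
      linarith [hC i]
    exact h3.trans (mul_le_mul_of_nonneg_left h1 hC0.le)
  have hX : (0 : ℝ) < (2 : ℝ) ^ J := by positivity
  have t1 : 2 * (2 : ℝ) ^ J / (2 ^ i + 1) ≤ 2 * 2 ^ J * (1 / 2 ^ i) := by
    rw [mul_one_div]
    gcongr
    linarith
  have t2 : (2 : ℝ) ^ (i ^ 3) ≤ 2 ^ J * (1 / 2 ^ i) := by
    rw [mul_one_div, le_div_iff₀ (by positivity), ← pow_add]
    refine pow_le_pow_right₀ (by norm_num) ?_
    have h3 := i0_pow_le J
    have h4 : i ^ 3 + i ≤ i ^ 4 := by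
      have h5 : i ≤ i ^ 3 := Nat.le_self_pow (by norm_num) i
      calc i ^ 3 + i ≤ i ^ 3 * 2 := by omega
        _ ≤ i ^ 3 * i := Nat.mul_le_mul_left _ (by omega)
        _ = i ^ 4 := by ring
    exact h4.trans h3
  have t3 : ((J : ℝ) + 1) * (1 / ((i : ℝ) + 1) ^ (4 * (K + 1))) ≤ 1 / ((J : ℝ) + 1) ^ K := by
    have h3 : ((i : ℝ) + 1) ^ (4 * (K + 1)) = ((i : ℝ) + 1) ^ (4 * K) * ((i : ℝ) + 1) ^ 4 := by
      rw [← pow_add]
      congr 1
    calc ((J : ℝ) + 1) * (1 / ((i : ℝ) + 1) ^ (4 * (K + 1)))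
        ≤ ((i : ℝ) + 1) ^ 4 * (1 / ((i : ℝ) + 1) ^ (4 * (K + 1))) := by gcongr
      _ = 1 / ((i : ℝ) + 1) ^ (4 * K) := by
          rw [h3]
          field_simp
      _ ≤ _ := h1
  have t4 : Real.exp (6 + 6 * i) / 2 ^ (i ^ 2) ≤ Real.exp 6 * (1 / 2 ^ i) := by
    have h3 : Real.exp (6 + 6 * i) = Real.exp 6 * (Real.exp 6) ^ i := by
      rw [Real.exp_add, ← Real.exp_nat_mul]
      congr 2
      ring
    have h4 : Real.exp 6 ≤ 512 := by
      have h5 : Real.exp 6 = (Real.exp 1) ^ 6 := by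
        rw [← Real.exp_nat_mul]
        norm_num
      rw [h5]
      have h6 := Real.exp_one_lt_d9
      calc (Real.exp 1) ^ 6 ≤ (2.7182818286 : ℝ) ^ 6 := pow_le_pow_left₀ (Real.exp_pos 1).le h6.le 6
        _ ≤ 512 := by norm_num
    have h5 : 2 * Real.exp 6 ≤ (2 : ℝ) ^ i := by
      calc 2 * Real.exp 6 ≤ 2 ^ 10 := by linarith
        _ ≤ (2 : ℝ) ^ i := pow_le_pow_right₀ (by norm_num) hJ
    rw [h3, mul_one_div, div_le_div_iff₀ (by positivity) (by positivity)]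
    have h6 : (Real.exp 6) ^ i * 2 ^ i ≤ 2 ^ (i ^ 2) := by
      calc (Real.exp 6) ^ i * 2 ^ i = (2 * Real.exp 6) ^ i := by
            rw [mul_pow]
            ring
        _ ≤ ((2 : ℝ) ^ i) ^ i := pow_le_pow_left₀ (by positivity) h5 i
        _ = 2 ^ (i ^ 2) := by
            rw [← pow_mul, pow_two]
    have h7 := Real.exp_pos 6
    nlinarith
  have e1 := mul_le_mul_of_nonneg_left h2 hX.le
  have e2 := mul_le_mul_of_nonneg_left t3 hX.le
  have e3 := mul_le_mul_of_nonneg_left t4 hX.le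
  have e4 := mul_le_mul_of_nonneg_left (mul_le_mul_of_nonneg_left h2 (Real.exp_pos 6).le) hX.le
  calc 2 * 2 ^ J / (2 ^ i + 1) + 2 * 2 ^ (i ^ 3) +
      2 * (2 ^ J * ((J : ℝ) + 1) * (1 / ((i : ℝ) + 1) ^ (4 * (K + 1)))) +
        2 ^ J * (Real.exp (6 + 6 * i) / 2 ^ (i ^ 2))
      ≤ 2 * (2 ^ J * (C * (1 / ((J : ℝ) + 1) ^ K))) + 2 * (2 ^ J * (C * (1 / ((J : ℝ) + 1) ^ K))) +
        2 * (2 ^ J * (1 / ((J : ℝ) + 1) ^ K)) + 2 ^ J * (Real.exp 6 * (C * (1 / ((J : ℝ) + 1) ^ K))) := by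
        linarith
    _ = _ := by
        field_simp
        ring

/-- the engine with log powers -/
theorem t_ENGL : S_ENGL := by
  intro ν _ hν W A hW1 hW0 hWc
  rw [ae_all_iff]
  intro K
  obtain ⟨C, hC0, hC⟩ := final_le K
  filter_upwards [prob ν hν (17 + 2 * (4 * (K + 1))) (by omega) W A hW0 hWc] with ω hω
  obtain ⟨J1, hJ1⟩ := eventually_atTop.1 hω
  set J2 := max J1 10000 with hJ2
  refine ⟨C + ((J2 : ℝ) + 1) ^ K, ?_⟩
  intro J w hw
  have hJ0 : (0 : ℝ) < ((J : ℝ) + 1) ^ K := by positivity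
  have hX : (0 : ℝ) < (2 : ℝ) ^ J := by positivity
  have hJ20 : (0 : ℝ) < ((J2 : ℝ) + 1) ^ K := by positivity
  rcases Nat.lt_or_ge J J2 with h | h
  · have h1 := trivial_bound (ω := ω) (hW1 J w hw) (2 ^ J)
    push_cast at h1
    refine h1.trans ?_
    rw [le_div_iff₀ hJ0]
    have h2 : ((J : ℝ) + 1) ^ K ≤ ((J2 : ℝ) + 1) ^ K := by
      have h3 : (J : ℝ) ≤ J2 := by exact_mod_cast h.le
      gcongr
    nlinarith
  · have h1 := good_le (b := 4 * (K + 1)) (i0_ge ((le_max_right _ _).trans h)) (hW1 J) (hW0 J)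
      (hJ1 J ((le_max_left _ _).trans h)) hw
    have h2 := h1.trans (hC J (i0_ge ((le_max_right _ _).trans h)))
    refine h2.trans ?_
    gcongr
    linarith

end Pool.Agent.Q176.EP
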