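import Mathlib

/-!
# Project EP (helper255), job ENGL: smooth and rough parts
-/

set_option autoImplicit false

namespace Pool.Agent.Q176.EP

open Finset

/-- all prime factors are larger than `y` -/
def Rough (y b : ℕ) : Prop := ∀ p : ℕ, p.Prime → p ∣ b → y < p

/-- all prime factors are at most `y` -/
def Smooth (y a : ℕ) : Prop := ∀ p : ℕ, p.Prime → p ∣ a → p ≤ y

theorem coprime_of {y a b : ℕ} (ha : Smooth y a) (hb : Rough y b) : Nat.Coprime a b := by
  by_contra h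
  obtain ⟨p, hp, h1, h2⟩ := Nat.Prime.not_coprime_iff_dvd.1 h
  have h3 := ha p hp h1
  have h4 := hb p hp h2
  omega

theorem exists_dec (y n : ℕ) : n ≠ 0 → ∃ a b : ℕ, a ≠ 0 ∧ b ≠ 0 ∧ Smooth y a ∧ Rough y b ∧ n = a * b := by
  induction n using induction_on_primes with
  | zero => exact fun h => absurd rfl h
  | one =>
    refine fun _ => ⟨1, 1, one_ne_zero, one_ne_zero, ?_, ?_, rfl⟩
    · intro p hp h
      exact absurd (Nat.dvd_one.1 h) hp.ne_one
    · intro p hp h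
      exact absurd (Nat.dvd_one.1 h) hp.ne_one
  | prime_mul p n hp ih =>
    intro hn
    obtain ⟨a, b, ha, hb, h1, h2, h3⟩ := ih (fun h => hn (by rw [h, mul_zero]))
    rcases le_or_gt p y with hpy | hpy
    · refine ⟨p * a, b, mul_ne_zero hp.ne_zero ha, hb, ?_, h2, by rw [h3, mul_assoc]⟩
      intro q hq hqd
      rcases (Nat.Prime.dvd_mul hq).1 hqd with h | h
      · rw [(Nat.prime_dvd_prime_iff_eq hq hp).1 h]
        exact hpy
      · exact h1 q hq h
    · refine ⟨a, p * b, ha, mul_ne_zero hp.ne_zero hb, h1, ?_, by rw [h3]; ring⟩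
      intro q hq hqd
      rcases (Nat.Prime.dvd_mul hq).1 hqd with h | h
      · rw [(Nat.prime_dvd_prime_iff_eq hq hp).1 h]
        exact hpy
      · exact h2 q hq h

open Classical in
/-- sums over all numbers as double sums -/
theorem sum_dec (y X : ℕ) (F : ℕ → ℝ) (hF : ∀ n, X < n → F n = 0) :
    ∑ n ∈ Icc 1 X, F n =
      ∑ a ∈ (Icc 1 X).filter (Smooth y), ∑ b ∈ (Icc 1 X).filter (Rough y), F (a * b) := by
  rw [← Finset.sum_product' ((Icc 1 X).filter (Smooth y)) ((Icc 1 X).filter (Rough y)) (fun a b => F (a * b))]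
  set S := (Icc 1 X).filter (Smooth y) ×ˢ (Icc 1 X).filter (Rough y) with hS
  have hinj : Set.InjOn (fun p : ℕ × ℕ => p.1 * p.2) (S : Set (ℕ × ℕ)) := by
    rintro ⟨a, b⟩ h1 ⟨a', b'⟩ h2 h3
    rw [hS, Finset.mem_coe, Finset.mem_product, Finset.mem_filter, Finset.mem_filter, Finset.mem_Icc,
      Finset.mem_Icc] at h1 h2
    simp only at h1 h2 h3
    have d1 : a ∣ a' := by
      refine Nat.Coprime.dvd_of_dvd_mul_right (coprime_of h1.1.2 h2.2.2) ?_
      rw [← h3]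
      exact dvd_mul_right a b
    have d2 : a' ∣ a := by
      refine Nat.Coprime.dvd_of_dvd_mul_right (coprime_of h2.1.2 h1.2.2) ?_
      rw [h3]
      exact dvd_mul_right a' b'
    have e1 : a = a' := Nat.dvd_antisymm d1 d2
    subst e1
    have e2 : b = b' := Nat.eq_of_mul_eq_mul_left (by omega) h3
    rw [e2]
  have h1 := Finset.sum_image (f := F) hinj
  rw [← h1]
  refine Finset.sum_subset ?_ ?_
  · intro n hn
    rw [Finset.mem_Icc] at hn
    obtain ⟨a, b, ha, hb, h2, h3, h4⟩ := exists_dec y n (by omega)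
    rw [Finset.mem_image]
    have ha1 : 1 ≤ a := Nat.one_le_iff_ne_zero.2 ha
    have hb1 : 1 ≤ b := Nat.one_le_iff_ne_zero.2 hb
    have h5 : a ≤ a * b := Nat.le_mul_of_pos_right a (by omega)
    have h6 : b ≤ a * b := Nat.le_mul_of_pos_left b (by omega)
    refine ⟨(a, b), ?_, h4.symm⟩
    rw [hS, Finset.mem_product, Finset.mem_filter, Finset.mem_filter, Finset.mem_Icc, Finset.mem_Icc]
    exact ⟨⟨⟨ha1, by omega⟩, h2⟩, ⟨hb1, by omega⟩, h3⟩
  · intro n hn hn2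
    rw [Finset.mem_image] at hn
    obtain ⟨⟨a, b⟩, h2, h3⟩ := hn
    rw [hS, Finset.mem_product, Finset.mem_filter, Finset.mem_filter, Finset.mem_Icc, Finset.mem_Icc] at h2
    apply hF
    rw [Finset.mem_Icc] at hn2
    simp only at h3 h2
    have : 1 ≤ a * b := Nat.mul_pos (by omega) (by omega)
    omega

open Classical in
/-- the numbers divisible by the square of a large number -/
theorem sq_count (y X : ℕ) :
    (((Icc 1 X).filter (fun n => ∃ p, y < p ∧ p ^ 2 ∣ n)).card : ℝ) ≤ 2 * X / (y + 1) := by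
  have hsub : (Icc 1 X).filter (fun n => ∃ p, y < p ∧ p ^ 2 ∣ n) ⊆
      (Ioo y (X + 1)).biUnion (fun p => (Ioc 0 X).filter (fun n => p ^ 2 ∣ n)) := by
    intro n hn
    rw [Finset.mem_filter, Finset.mem_Icc] at hn
    obtain ⟨⟨h1, h2⟩, p, h3, h4⟩ := hn
    rw [Finset.mem_biUnion]
    have h5 : p ^ 2 ≤ n := Nat.le_of_dvd (by omega) h4
    have h6 : p ≤ p ^ 2 := Nat.le_self_pow (by norm_num) p
    exact ⟨p, Finset.mem_Ioo.2 ⟨h3, by omega⟩, Finset.mem_filter.2 ⟨Finset.mem_Ioc.2 ⟨by omega, h2⟩, h4⟩⟩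
  have h1 := (Finset.card_le_card hsub).trans Finset.card_biUnion_le
  have h2 : ∀ p ∈ Ioo y (X + 1), (((Ioc 0 X).filter (fun n => p ^ 2 ∣ n)).card : ℝ) ≤ X * ((p : ℝ) ^ 2)⁻¹ := by
    intro p _
    rw [Nat.Ioc_filter_dvd_card_eq_div]
    have := @Nat.cast_div_le ℝ _ _ _ X (p ^ 2)
    push_cast at this
    rw [← div_eq_mul_inv]
    exact this
  calc (((Icc 1 X).filter (fun n => ∃ p, y < p ∧ p ^ 2 ∣ n)).card : ℝ)
      ≤ ∑ p ∈ Ioo y (X + 1), (((Ioc 0 X).filter (fun n => p ^ 2 ∣ n)).card : ℝ) := by exact_mod_cast h1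
    _ ≤ ∑ p ∈ Ioo y (X + 1), X * ((p : ℝ) ^ 2)⁻¹ := Finset.sum_le_sum h2
    _ = X * ∑ p ∈ Ioo y (X + 1), ((p : ℝ) ^ 2)⁻¹ := by rw [Finset.mul_sum]
    _ ≤ X * (2 / (y + 1)) := mul_le_mul_of_nonneg_left (sum_Ioo_inv_sq_le y (X + 1)) (Nat.cast_nonneg X)
    _ = 2 * X / (y + 1) := by ring

theorem harm (n : ℕ) : ∑ i ∈ Icc 1 n, (((i : ℕ) : ℝ))⁻¹ ≤ 1 + Real.log n := by
  have h := harmonic_le_one_add_log n
  rw [harmonic_eq_sum_Icc] at h
  push_cast at h
  exact h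

/-- the tail of the smooth numbers -/
theorem smooth_tail (i : ℕ) (hi : 4 ≤ i) (S : Finset ℕ)
    (hS : ∀ a ∈ S, a ≠ 0 ∧ Smooth (2 ^ i) a ∧ 2 ^ (i ^ 3) < a) :
    ∑ a ∈ S, (((a : ℕ) : ℝ))⁻¹ ≤ Real.exp (6 + 6 * i) / 2 ^ (i ^ 2) := by
  classical
  have hi0 : (0 : ℝ) < i := by
    have : 0 < i := by omega
    exact_mod_cast this
  have hi4 : (4 : ℝ) ≤ i := by exact_mod_cast hi
  set s : ℝ := 1 - 1 / (i : ℝ) with hs
  have hs1 : 3 / 4 ≤ s := by
    have : 1 / (i : ℝ) ≤ 1 / 4 := one_div_le_one_div_of_le (by norm_num) hi4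
    linarith
  let f : ℕ →* ℝ :=
    { toFun := fun n => ((n : ℝ)) ^ (-s)
      map_one' := by simp
      map_mul' := by
        intro m n
        push_cast
        exact Real.mul_rpow (Nat.cast_nonneg m) (Nat.cast_nonneg n) }
  have hf : ∀ n : ℕ, f n = ((n : ℝ)) ^ (-s) := fun n => rfl
  have hf0 : ∀ n : ℕ, 0 ≤ f n := fun n => by
    rw [hf]
    positivity
  have h1 : ∀ {p : ℕ}, p.Prime → ‖f p‖ < 1 := by
    intro p hp
    rw [Real.norm_of_nonneg (hf0 p), hf]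
    exact Real.rpow_lt_one_of_one_lt_of_neg (by exact_mod_cast hp.one_lt) (by linarith)
  obtain ⟨h2, h3⟩ := EulerProduct.summable_and_hasSum_smoothNumbers_prod_primesBelow_geometric h1 (2 ^ i + 1)
  have hSm : ∀ a ∈ S, a ∈ Nat.smoothNumbers (2 ^ i + 1) := by
    intro a ha
    rw [Nat.mem_smoothNumbers']
    intro p hp hpd
    have := (hS a ha).2.1 p hp hpd
    omega
  have h4 : ∑ a ∈ S, f a ≤ ∏ p ∈ (2 ^ i + 1).primesBelow, (1 - f p)⁻¹ := by
    rw [← Finset.sum_subtype_of_mem (fun a => f a) hSm]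
    exact sum_le_hasSum _ (fun a _ => hf0 a) h3
  have h5 : ∀ a ∈ S, ((a : ℝ))⁻¹ ≤ f a / 2 ^ (i ^ 2) := by
    intro a ha
    obtain ⟨ha0, -, ha2⟩ := hS a ha
    have ha0' : (0 : ℝ) < a := by
      have : 0 < a := Nat.pos_of_ne_zero ha0
      exact_mod_cast this
    have ha2' : (2 : ℝ) ^ (i ^ 3) ≤ a := by exact_mod_cast ha2.le
    have e1 : f a = ((a : ℝ))⁻¹ * (a : ℝ) ^ (1 / (i : ℝ)) := by
      rw [hf, ← Real.rpow_neg_one, ← Real.rpow_add ha0']
      congr 1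
      rw [hs]
      ring
    have e2 : (2 : ℝ) ^ (i ^ 2) ≤ (a : ℝ) ^ (1 / (i : ℝ)) := by
      calc (2 : ℝ) ^ (i ^ 2) = ((2 : ℝ) ^ (i ^ 3)) ^ (1 / (i : ℝ)) := by
            rw [← Real.rpow_natCast, ← Real.rpow_natCast, ← Real.rpow_mul (by norm_num)]
            congr 1
            push_cast
            field_simp
        _ ≤ _ := Real.rpow_le_rpow (by positivity) ha2' (by positivity)
    rw [e1, mul_div_assoc]
    have h6 : 1 ≤ (a : ℝ) ^ (1 / (i : ℝ)) / 2 ^ (i ^ 2) := (one_le_div (by positivity)).2 e2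
    have h7 : 0 < ((a : ℝ))⁻¹ := inv_pos.2 ha0'
    nlinarith
  have h6 : ∀ p ∈ (2 ^ i + 1).primesBelow, (1 - f p)⁻¹ ≤ Real.exp (6 * ((p : ℝ))⁻¹) := by
    intro p hp
    rw [Nat.mem_primesBelow] at hp
    obtain ⟨hp1, hp2⟩ := hp
    have hp0 : (0 : ℝ) < p := by exact_mod_cast hp2.pos
    have e1 : f p = ((p : ℝ))⁻¹ * (p : ℝ) ^ (1 / (i : ℝ)) := by
      rw [hf, ← Real.rpow_neg_one, ← Real.rpow_add hp0]
      congr 1
      rw [hs]
      ring
    have e2 : (p : ℝ) ^ (1 / (i : ℝ)) ≤ 2 := by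
      calc (p : ℝ) ^ (1 / (i : ℝ)) ≤ ((2 : ℝ) ^ i) ^ (1 / (i : ℝ)) := by
            refine Real.rpow_le_rpow hp0.le ?_ (by positivity)
            have : p ≤ 2 ^ i := by omega
            exact_mod_cast this
        _ = 2 := by
            rw [← Real.rpow_natCast, ← Real.rpow_mul (by norm_num)]
            rw [mul_one_div_cancel hi0.ne', Real.rpow_one]
    have e3 : f p ≤ 2 * ((p : ℝ))⁻¹ := by
      rw [e1, mul_comm]
      exact mul_le_mul_of_nonneg_right e2 (inv_nonneg.2 hp0.le)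
    have e4 : f p ≤ 2 / 3 := by
      rw [hf]
      calc ((p : ℝ)) ^ (-s) ≤ (2 : ℝ) ^ (-s) := by
            refine Real.rpow_le_rpow_of_nonpos (by norm_num) ?_ (by linarith)
            exact_mod_cast hp2.two_le
        _ ≤ (2 : ℝ) ^ (-(3 / 4 : ℝ)) := Real.rpow_le_rpow_of_exponent_le (by norm_num) (by linarith)
        _ ≤ 2 / 3 := by
            rw [Real.rpow_neg (by norm_num)]
            rw [inv_le_comm₀ (by positivity) (by norm_num)]
            have h7 : ((3 / 2 : ℝ) ^ (4 : ℕ)) ^ (1 / 4 : ℝ) = 3 / 2 := by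
              rw [← Real.rpow_natCast, ← Real.rpow_mul (by norm_num)]
              norm_num
            have h8 : ((2 : ℝ) ^ (3 : ℕ)) ^ (1 / 4 : ℝ) = (2 : ℝ) ^ (3 / 4 : ℝ) := by
              rw [← Real.rpow_natCast, ← Real.rpow_mul (by norm_num)]
              norm_num
            rw [← h8]
            calc (2 / 3 : ℝ)⁻¹ = 3 / 2 := by norm_num
              _ = ((3 / 2 : ℝ) ^ (4 : ℕ)) ^ (1 / 4 : ℝ) := h7.symm
              _ ≤ _ := Real.rpow_le_rpow (by positivity) (by norm_num) (by norm_num)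
    have e5 := hf0 p
    have e6 : (1 - f p)⁻¹ ≤ 1 + 3 * f p := by
      rw [inv_le_iff_one_le_mul₀ (by linarith)]
      nlinarith
    refine e6.trans ?_
    have e7 := Real.add_one_le_exp (6 * ((p : ℝ))⁻¹)
    linarith
  have h7 : ∏ p ∈ (2 ^ i + 1).primesBelow, (1 - f p)⁻¹ ≤ Real.exp (6 + 6 * i) := by
    calc ∏ p ∈ (2 ^ i + 1).primesBelow, (1 - f p)⁻¹
        ≤ ∏ p ∈ (2 ^ i + 1).primesBelow, Real.exp (6 * (((p : ℕ) : ℝ))⁻¹) := by
          refine Finset.prod_le_prod (fun p hp => ?_) h6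
          rw [Nat.mem_primesBelow] at hp
          have := h1 hp.2
          rw [Real.norm_of_nonneg (hf0 p)] at this
          exact inv_nonneg.2 (by linarith)
      _ = Real.exp (∑ p ∈ (2 ^ i + 1).primesBelow, 6 * (((p : ℕ) : ℝ))⁻¹) := (Real.exp_sum _ _).symm
      _ ≤ Real.exp (6 + 6 * i) := by
          refine Real.exp_le_exp.2 ?_
          rw [← Finset.mul_sum]
          have h8 : ∑ p ∈ (2 ^ i + 1).primesBelow, (((p : ℕ) : ℝ))⁻¹ ≤ ∑ n ∈ Icc 1 (2 ^ i), (((n : ℕ) : ℝ))⁻¹ := by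
            refine Finset.sum_le_sum_of_subset_of_nonneg ?_ (fun _ _ _ => by positivity)
            intro p hp
            rw [Nat.mem_primesBelow] at hp
            exact Finset.mem_Icc.2 ⟨hp.2.pos, by omega⟩
          have h9 := harm (2 ^ i)
          have h10 : Real.log ((2 ^ i : ℕ) : ℝ) ≤ i := by
            push_cast
            rw [Real.log_pow]
            have := Real.log_two_lt_d9
            nlinarith
          linarith
  calc ∑ a ∈ S, (((a : ℕ) : ℝ))⁻¹ ≤ ∑ a ∈ S, f a / 2 ^ (i ^ 2) := Finset.sum_le_sum h5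
    _ = (∑ a ∈ S, f a) / 2 ^ (i ^ 2) := by rw [Finset.sum_div]
    _ ≤ Real.exp (6 + 6 * i) / 2 ^ (i ^ 2) := by
        gcongr
        exact h4.trans h7

end Pool.Agent.Q176.EP
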