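import Pool.Agent.Q190.EP.Eng
import Pool.Agent.Q255.EP.Stm3
import Pool.Agent.Q176.EP.NT

/-!
# Project EP (helper255), job ENGL: the good events
-/

set_option autoImplicit false

namespace Pool.Agent.Q176.EP

open Filter Topology MeasureTheory Pool.Agent.Q255.IC Pool.Agent.Q255.IR Pool.Agent.Q255.EP Pool.Agent.Q190.EP
open scoped ENNReal

/-- the exponent of the smoothness bound -/
def i0 (J : ℕ) : ℕ := Nat.sqrt (Nat.sqrt J)

theorem i0_pow_le (J : ℕ) : i0 J ^ 4 ≤ J := by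
  unfold i0
  have h1 := Nat.sqrt_le' J
  have h2 := Nat.sqrt_le' (Nat.sqrt J)
  calc Nat.sqrt (Nat.sqrt J) ^ 4 = (Nat.sqrt (Nat.sqrt J) ^ 2) ^ 2 := by ring
    _ ≤ (Nat.sqrt J) ^ 2 := Nat.pow_le_pow_left h2 2
    _ ≤ J := h1

theorem lt_i0_pow (J : ℕ) : J + 1 ≤ (i0 J + 1) ^ 4 := by
  unfold i0
  have h1 := Nat.lt_succ_sqrt' J
  have h2 := Nat.lt_succ_sqrt' (Nat.sqrt J)
  simp only [Nat.succ_eq_add_one] at h1 h2
  calc J + 1 ≤ (Nat.sqrt J + 1) ^ 2 := h1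
    _ ≤ ((Nat.sqrt (Nat.sqrt J) + 1) ^ 2) ^ 2 := Nat.pow_le_pow_left h2 2
    _ = _ := by ring

/-- the levels -/
noncomputable def Lv (B J i : ℕ) : ℝ := if i < i0 J then 0 else 2 ^ (i + 1) * ((J : ℝ) + 1) ^ 3 / ((i : ℝ) + 1) ^ B

/-- the weights of the blocks -/
noncomputable def Kv (B J i : ℕ) : ℝ := if i < i0 J then 1 else 4 * ((J : ℝ) + 1) * Lv B J i

theorem Lv_nonneg (B J i : ℕ) : 0 ≤ Lv B J i := by
  unfold Lv
  split_ifs
  · exact le_rfl
  · positivity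

theorem Lv_pos {B J i : ℕ} (h : i0 J ≤ i) : 0 < Lv B J i := by
  unfold Lv
  rw [if_neg (by omega)]
  positivity

theorem Kv_pos (B J i : ℕ) : 0 < Kv B J i := by
  unfold Kv
  split_ifs with h
  · exact one_pos
  · have := Lv_pos (B := B) (not_lt.1 h)
    positivity

theorem sum_LvKv (B J : ℕ) : ∑ i ∈ Finset.range J, 4 * Lv B J i / Kv B J i ≤ 1 := by
  have hJ : (0 : ℝ) < (J : ℝ) + 1 := by positivity
  calc ∑ i ∈ Finset.range J, 4 * Lv B J i / Kv B J i ≤ ∑ i ∈ Finset.range J, 1 / ((J : ℝ) + 1) := by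
        refine Finset.sum_le_sum fun i _ => ?_
        rcases Nat.lt_or_ge i (i0 J) with h | h
        · have : Lv B J i = 0 := by
            unfold Lv
            rw [if_pos h]
          rw [this]
          simp only [mul_zero, zero_div]
          positivity
        · have h1 := Lv_pos (B := B) h
          unfold Kv
          rw [if_neg (by omega)]
          apply le_of_eq
          field_simp
    _ = J / ((J : ℝ) + 1) := by
        rw [Finset.sum_const, Finset.card_range, nsmul_eq_mul]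
        ring
    _ ≤ 1 := by
        rw [div_le_one hJ]
        linarith

open Classical in
/-- the functions restricted to the rough numbers -/
noncomputable def WR (y X : ℕ) (W : Finset (ℕ → ℝ)) : Finset (ℕ → ℝ) :=
  (W ×ˢ Finset.Icc 1 X).image fun p m => if Rough y m then p.1 (p.2 * m) else 0

theorem mem_WR {y X : ℕ} {W : Finset (ℕ → ℝ)} {g : ℕ → ℝ} : g ∈ WR y X W ↔
    ∃ w ∈ W, ∃ a, 1 ≤ a ∧ a ≤ X ∧ (∀ m, Rough y m → g m = w (a * m)) ∧ ∀ m, ¬ Rough y m → g m = 0 := by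
  classical
  unfold WR
  rw [Finset.mem_image]
  constructor
  · rintro ⟨⟨w, a⟩, h, rfl⟩
    obtain ⟨h1, h2⟩ := Finset.mem_product.1 h
    rw [Finset.mem_Icc] at h2
    refine ⟨w, h1, a, h2.1, h2.2, ?_, ?_⟩
    · intro m hm
      simp only [if_pos hm]
    · intro m hm
      simp only [if_neg hm]
  · rintro ⟨w, hw, a, h1, h2, h3, h4⟩
    refine ⟨(w, a), Finset.mem_product.2 ⟨hw, Finset.mem_Icc.2 ⟨h1, h2⟩⟩, ?_⟩
    funext m
    by_cases hm : Rough y m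
    · simp only [if_pos hm, h3 m hm]
    · simp only [if_neg hm, h4 m hm]

theorem WR_card (y X : ℕ) (W : Finset (ℕ → ℝ)) : (WR y X W).card ≤ W.card * X := by
  classical
  refine Finset.card_image_le.trans ?_
  rw [Finset.card_product, Nat.card_Icc]
  simp

theorem WR_zero {y X : ℕ} {W : Finset (ℕ → ℝ)} {M : ℕ} (hW : ∀ w ∈ W, ∀ m, M < m → w m = 0) :
    ∀ g ∈ WR y X W, ∀ m, M < m → g m = 0 := by
  intro g hg m hm
  obtain ⟨w, hw, a, h1, h2, h3, h4⟩ := mem_WR.1 hg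
  by_cases h : Rough y m
  · rw [h3 m h]
    exact hW w hw _ (lt_of_lt_of_le hm (Nat.le_mul_of_pos_left m h1))
  · exact h4 m h

/-- powers against exponentials -/
theorem pow_le_two_pow (B : ℕ) : ∃ C : ℝ, 0 < C ∧ ∀ i : ℕ, ((i : ℝ) + 1) ^ B ≤ C * 2 ^ i := by
  have h1 : Tendsto (fun n : ℕ => (n : ℝ) ^ B / (2 : ℝ) ^ n) atTop (𝓝 0) :=
    tendsto_pow_const_div_const_pow_of_one_lt B (by norm_num)
  obtain ⟨C, hC⟩ := h1.bddAbove_range
  refine ⟨2 * max C 1, by positivity, fun i => ?_⟩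
  have h2 : (((i + 1 : ℕ)) : ℝ) ^ B / (2 : ℝ) ^ (i + 1) ≤ C := hC ⟨i + 1, rfl⟩
  rw [div_le_iff₀ (by positivity)] at h2
  push_cast at h2
  calc ((i : ℝ) + 1) ^ B ≤ C * 2 ^ (i + 1) := h2
    _ ≤ max C 1 * 2 ^ (i + 1) := mul_le_mul_of_nonneg_right (le_max_left _ _) (by positivity)
    _ = _ := by ring

theorem D_le (ν : Measure (ℕ → Bool)) (hν : LogInfo ν) (B : ℕ) (hB : 1 ≤ B) :
    ∃ C : ℝ, 0 < C ∧ ∀ i : ℕ, D ν (NN (i + 1)) + Real.log 2 ≤ C * (2 ^ (i + 1) / ((i : ℝ) + 1) ^ B) := by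
  obtain ⟨C, hC⟩ := hν B (by exact_mod_cast hB)
  obtain ⟨C', hC'0, hC'⟩ := pow_le_two_pow B
  refine ⟨max C 0 * 2 ^ B + C', by positivity, fun i => ?_⟩
  have h1 := hC (2 ^ (i + 1)) (by
    rw [pow_succ]
    have : 1 ≤ 2 ^ i := Nat.one_le_two_pow
    omega)
  have hi : (0 : ℝ) < (i : ℝ) + 1 := by positivity
  have h2 : ((i : ℝ) + 1) / 2 ≤ Real.log ((2 ^ (i + 1) : ℕ) : ℝ) := by
    push_cast
    rw [Real.log_pow]
    have := Real.log_two_gt_d9
    push_cast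
    nlinarith
  have h3 : (0 : ℝ) < Real.log ((2 ^ (i + 1) : ℕ) : ℝ) := lt_of_lt_of_le (by positivity) h2
  have h4 : D ν (NN (i + 1)) ≤ max C 0 * 2 ^ B * (2 ^ (i + 1) / ((i : ℝ) + 1) ^ B) := by
    calc D ν (NN (i + 1)) ≤ C * ((2 ^ (i + 1) : ℕ) : ℝ) / Real.log ((2 ^ (i + 1) : ℕ) : ℝ) ^ (B : ℝ) := h1
      _ ≤ max C 0 * ((2 ^ (i + 1) : ℕ) : ℝ) / Real.log ((2 ^ (i + 1) : ℕ) : ℝ) ^ (B : ℝ) := by
          gcongr
          exact le_max_left _ _
      _ ≤ max C 0 * ((2 ^ (i + 1) : ℕ) : ℝ) / (((i : ℝ) + 1) / 2) ^ (B : ℝ) := by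
          gcongr
      _ = _ := by
          rw [Real.rpow_natCast]
          push_cast
          rw [div_pow]
          field_simp
  have h5 : Real.log 2 ≤ C' * (2 ^ (i + 1) / ((i : ℝ) + 1) ^ B) := by
    have h6 := hC' i
    have h7 : 1 ≤ C' * 2 ^ i / ((i : ℝ) + 1) ^ B := (one_le_div (by positivity)).2 h6
    have h8 : C' * (2 ^ (i + 1) / ((i : ℝ) + 1) ^ B) = 2 * (C' * 2 ^ i / ((i : ℝ) + 1) ^ B) := by
      rw [pow_succ]
      ring
    rw [h8]
    have := Real.log_two_lt_d9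
    linarith
  rw [add_mul]
  linarith

theorem K_le {A : ℝ} {J : ℕ} {c : ℝ} (hc : c ≤ Real.exp (A * ((J : ℝ) + 1)) * 2 ^ J) :
    2 * c * ((2 : ℝ) ^ J + 1) ^ 2 ≤ Real.exp ((A + 4) * ((J : ℝ) + 1)) := by
  have h2 : (2 : ℝ) ^ J + 1 ≤ (2 : ℝ) ^ (J + 1) := by
    have : (1 : ℝ) ≤ (2 : ℝ) ^ J := one_le_pow₀ (by norm_num)
    rw [pow_succ]
    linarith
  have h3 : (2 : ℝ) ^ (J + 1) ≤ Real.exp ((J : ℝ) + 1) := by
    have h4 : (2 : ℝ) ≤ Real.exp 1 := by
      have := Real.add_one_le_exp (1 : ℝ)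
      linarith
    calc (2 : ℝ) ^ (J + 1) ≤ (Real.exp 1) ^ (J + 1) := pow_le_pow_left₀ (by norm_num) h4 _
      _ = Real.exp ((J : ℝ) + 1) := by
          rw [← Real.exp_nat_mul]
          congr 1
          push_cast
          ring
  have h5 : 0 < Real.exp ((J : ℝ) + 1) := Real.exp_pos _
  calc 2 * c * ((2 : ℝ) ^ J + 1) ^ 2 ≤ 2 * (Real.exp (A * ((J : ℝ) + 1)) * 2 ^ J) * ((2 : ℝ) ^ J + 1) ^ 2 := by
        gcongr
    _ = Real.exp (A * ((J : ℝ) + 1)) * (2 ^ (J + 1) * ((2 : ℝ) ^ J + 1) ^ 2) := by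
        rw [pow_succ]
        ring
    _ ≤ Real.exp (A * ((J : ℝ) + 1)) * (Real.exp ((J : ℝ) + 1) * (Real.exp ((J : ℝ) + 1)) ^ 2) := by
        gcongr
        exact h2.trans h3
    _ = Real.exp ((A + 3) * ((J : ℝ) + 1)) := by
        rw [← Real.exp_nat_mul, ← Real.exp_add, ← Real.exp_add]
        congr 1
        push_cast
        ring
    _ ≤ _ := by
        refine Real.exp_le_exp.2 ?_
        nlinarith [(Nat.cast_nonneg J : (0 : ℝ) ≤ J)]

theorem Lv_large (B : ℕ) (A : ℝ) : ∃ J0 : ℕ, ∀ J i : ℕ, J0 ≤ J → i0 J ≤ i →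
    (A + 4) * ((J : ℝ) + 1) ≤ Lv B J i / 2 := by
  obtain ⟨C, hC0, hC⟩ := pow_le_two_pow B
  obtain ⟨J0, hJ0⟩ := exists_nat_ge (C * (|A| + 4))
  refine ⟨J0, fun J i hJ hi => ?_⟩
  unfold Lv
  rw [if_neg (by omega)]
  have hJ' : C * (|A| + 4) ≤ (J : ℝ) + 1 := by
    have : (J0 : ℝ) ≤ J := by exact_mod_cast hJ
    linarith
  have hJ1 : (1 : ℝ) ≤ (J : ℝ) + 1 := by
    have := (Nat.cast_nonneg J : (0 : ℝ) ≤ J)
    linarith
  have h1 : 1 / C ≤ 2 ^ i / ((i : ℝ) + 1) ^ B := by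
    rw [div_le_div_iff₀ hC0 (by positivity)]
    have := hC i
    linarith
  calc (A + 4) * ((J : ℝ) + 1) ≤ (|A| + 4) * ((J : ℝ) + 1) := by
        have := le_abs_self A
        nlinarith
    _ = 1 / C * (C * (|A| + 4)) * ((J : ℝ) + 1) := by
        field_simp
    _ ≤ 1 / C * ((J : ℝ) + 1) * ((J : ℝ) + 1) := by
        gcongr
    _ ≤ 1 / C * ((J : ℝ) + 1) ^ 3 := by
        have h2 : ((J : ℝ) + 1) ^ 2 ≤ ((J : ℝ) + 1) ^ 3 := pow_le_pow_right₀ hJ1 (by norm_num)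
        have h3 : 0 < 1 / C := by positivity
        nlinarith
    _ ≤ 2 ^ i / ((i : ℝ) + 1) ^ B * ((J : ℝ) + 1) ^ 3 := by
        gcongr
    _ = 2 ^ (i + 1) * ((J : ℝ) + 1) ^ 3 / ((i : ℝ) + 1) ^ B / 2 := by
        rw [pow_succ]
        ring

theorem pr_le_of_lt {i k : ℕ} (h : k < NN i) : pr k ≤ 2 ^ i := by
  unfold NN Nat.primeCounting Nat.primeCounting' at h
  have h4 : pr k < 2 ^ i + 1 := (Nat.lt_nth_iff_count_lt Nat.infinite_setOfPred_prime).1 h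
  omega

/-- at the small primes the restricted functions vanish -/
theorem dil_zero {J i j : ℕ} (hi : i ≤ i0 J) (hj : j < NN i) {W : Finset (ℕ → ℝ)} {g : ℕ → ℝ}
    (hg : g ∈ TT (WR (2 ^ i0 J) (2 ^ J) W)) (m : ℕ) : dil j g m = 0 := by
  obtain ⟨v, hv, r, hr, rfl⟩ := hg
  obtain ⟨w, hw, a, h1, h2, h3, h4⟩ := mem_WR.1 hv
  unfold dil
  apply h4
  intro hR
  have h5 := hR (pr j) (pr_prime j) (Dvd.dvd.mul_left (dvd_mul_right (pr j) m) r)
  have h6 := pr_le_of_lt hj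
  have h7 : 2 ^ i ≤ 2 ^ i0 J := Nat.pow_le_pow_right (by norm_num) hi
  omega

theorem prob (ν : Measure (ℕ → Bool)) [IsProbabilityMeasure ν] (hν : LogInfo ν) (B : ℕ) (hB : 1 ≤ B)
    (W : ℕ → Finset (ℕ → ℝ)) (A : ℝ) (hW0 : ∀ J, ∀ w ∈ W J, ∀ m, 2 ^ J < m → w m = 0)
    (hWc : ∀ J, ((W J).card : ℝ) ≤ Real.exp (A * ((J : ℝ) + 1))) :
    ∀ᵐ ω ∂ν, ∀ᶠ J : ℕ in atTop,
      Good ω (2 ^ J) (fun k => Kv B J (blk k)) NN (Lv B J) J (TT (WR (2 ^ i0 J) (2 ^ J) (W J))) := by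
  classical
  have hREC := Pool.Agent.Q13.EP.t_REC
  set V : ℕ → Finset (ℕ → ℝ) := fun J => WR (2 ^ i0 J) (2 ^ J) (W J) with hV
  have hb : ∀ J i : ℕ, ∃ U : Finset (Fin (NN (i + 1)) → Bool), i < J → i0 J ≤ i →
      (U.card : ℝ) ≤ 2 * (V J).card * ((2 : ℝ) ^ J + 1) ^ 2 * 2 ^ (NN (i + 1)) * Real.exp (-Lv B J i) ∧
      ∀ ω : ℕ → Bool, ω ∉ cyl U → ∀ w ∈ TT (V J), ∀ k, NN i ≤ k → k ≤ NN (i + 1) →
        |∑ j ∈ Finset.Ico (NN i) k, sg ω j *
            trunc (√(2 * Nq (fun k => Kv B J (blk k)) j (2 ^ J) (dil j w))) (Sq ω j (2 ^ J) (dil j w))| ≤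
          √(2 * Lv B J i * ∑ j ∈ Finset.Ico (NN i) k,
            √(2 * Nq (fun k => Kv B J (blk k)) j (2 ^ J) (dil j w)) ^ 2) := by
    intro J i
    by_cases hi : i < J
    · obtain ⟨U, h1, h2⟩ := bad hREC az J (V J) (WR_zero (hW0 J)) (fun k => Kv B J (blk k)) (Lv B J)
        (fun i => Lv_nonneg B J i) i hi
      exact ⟨U, fun _ _ => ⟨h1, h2⟩⟩
    · exact ⟨∅, fun h => absurd h hi⟩
  choose U hU using hb
  obtain ⟨J0, hJ0⟩ := Lv_large B A
  obtain ⟨CD, hCD0, hCD⟩ := D_le ν hν B hB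
  set S : ℕ → Finset ℕ := fun J => if J0 ≤ J then (Finset.range J).filter (fun i => i0 J ≤ i) else ∅ with hS
  set Bd : ℕ → Set (ℕ → Bool) := fun J => ⋃ i ∈ S J, cyl (U J i) with hBd
  have hgood : ∀ J ω, J0 ≤ J → ω ∉ Bd J →
      Good ω (2 ^ J) (fun k => Kv B J (blk k)) NN (Lv B J) J (TT (V J)) := by
    intro J ω hJ hω w hw i hi k hk1 hk2
    rcases Nat.lt_or_ge i (i0 J) with h | h
    · have h1 : ∑ j ∈ Finset.Ico (NN i) k, sg ω j *
            trunc (√(2 * Nq (fun k => Kv B J (blk k)) j (2 ^ J) (dil j w))) (Sq ω j (2 ^ J) (dil j w)) = 0 := by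
        refine Finset.sum_eq_zero fun j hj => ?_
        rw [Finset.mem_Ico] at hj
        have h2 : Sq ω j (2 ^ J) (dil j w) = 0 := by
          unfold Sq
          refine Finset.sum_eq_zero fun m _ => ?_
          rw [dil_zero (i := i + 1) (by omega) (by omega) hw m, zero_mul]
        have h3 : trunc (√(2 * Nq (fun k => Kv B J (blk k)) j (2 ^ J) (dil j w))) 0 = 0 := by
          unfold trunc
          split_ifs <;> rfl
        rw [h2, h3, mul_zero]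
      rw [h1, abs_zero]
      exact Real.sqrt_nonneg _
    · refine (hU J i hi h).2 ω ?_ w hw k hk1 hk2
      intro h'
      apply hω
      rw [hBd]
      simp only [Set.mem_iUnion]
      refine ⟨i, ?_, h'⟩
      rw [hS]
      simp only [if_pos hJ]
      exact Finset.mem_filter.2 ⟨Finset.mem_range.2 hi, h⟩
  have hcyl : ∀ J i, J0 ≤ J → i < J → i0 J ≤ i → ν.real (cyl (U J i)) ≤ 2 * CD / ((J : ℝ) + 1) ^ 3 := by
    intro J i hJ hi hi2
    have hVc : ((V J).card : ℝ) ≤ Real.exp (A * ((J : ℝ) + 1)) * 2 ^ J := by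
      have h1 : ((V J).card : ℝ) ≤ (W J).card * (2 : ℝ) ^ J := by
        have := WR_card (2 ^ i0 J) (2 ^ J) (W J)
        exact_mod_cast this
      exact h1.trans (mul_le_mul_of_nonneg_right (hWc J) (by positivity))
    have h1 := dpi_use ν (NN (i + 1)) (U J i) _ (Lv B J i) (hU J i hi hi2).1
      ((K_le hVc).trans (Real.exp_le_exp.2 (hJ0 J i hJ hi2)))
    have h2 := h1.trans (hCD i)
    have h3 : Lv B J i / 2 = 2 ^ i * ((J : ℝ) + 1) ^ 3 / ((i : ℝ) + 1) ^ B := by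
      unfold Lv
      rw [if_neg (by omega), pow_succ]
      ring
    have h4 : 0 < Lv B J i / 2 := by
      have := Lv_pos (B := B) hi2
      linarith
    have h5 : (2 * CD / ((J : ℝ) + 1) ^ 3) * (Lv B J i / 2) = CD * (2 ^ (i + 1) / ((i : ℝ) + 1) ^ B) := by
      rw [h3, pow_succ]
      field_simp
      ring
    rw [← h5] at h2
    exact le_of_mul_le_mul_right h2 h4
  have hreal : ∀ J, ν.real (Bd J) ≤ 2 * CD * (1 / ((J : ℝ) + 1) ^ 2) := by
    intro J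
    have hJ1 : (0 : ℝ) < (J : ℝ) + 1 := by positivity
    rcases Nat.lt_or_ge J J0 with h | h
    · have h1 : Bd J = ∅ := by
        rw [hBd]
        simp only
        have : S J = ∅ := by
          rw [hS]
          simp only
          rw [if_neg (by omega)]
        rw [this]
        simp
      rw [h1, measureReal_empty]
      positivity
    · have h1 : ν.real (Bd J) ≤ ∑ i ∈ S J, ν.real (cyl (U J i)) := measureReal_biUnion_finset_le _ _
      have hSJ : S J = (Finset.range J).filter (fun i => i0 J ≤ i) := by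
        rw [hS]
        simp only
        rw [if_pos h]
      have h2 : ∑ i ∈ S J, ν.real (cyl (U J i)) ≤ ∑ i ∈ S J, 2 * CD / ((J : ℝ) + 1) ^ 3 := by
        refine Finset.sum_le_sum fun i hi => ?_
        rw [hSJ, Finset.mem_filter, Finset.mem_range] at hi
        exact hcyl J i h hi.1 hi.2
      have h3 : ((S J).card : ℝ) ≤ (J : ℝ) + 1 := by
        have h4 : (S J).card ≤ J := by
          rw [hSJ]
          exact (Finset.card_filter_le _ _).trans (by rw [Finset.card_range])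
        have : ((S J).card : ℝ) ≤ J := by exact_mod_cast h4
        linarith
      rw [Finset.sum_const, nsmul_eq_mul] at h2
      refine (h1.trans h2).trans ?_
      calc ((S J).card : ℝ) * (2 * CD / ((J : ℝ) + 1) ^ 3) ≤ ((J : ℝ) + 1) * (2 * CD / ((J : ℝ) + 1) ^ 3) := by
            gcongr
        _ = _ := by
            field_simp
  have hsum : Summable fun J : ℕ => 2 * CD * (1 / ((J : ℝ) + 1) ^ 2) := by
    refine Summable.mul_left _ ?_
    have h1 : Summable fun n : ℕ => 1 / ((n : ℝ)) ^ 2 := Real.summable_one_div_nat_pow.2 (by norm_num)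
    have h2 := (summable_nat_add_iff 1).2 h1
    refine h2.congr fun J => ?_
    push_cast
    rfl
  have hfin : (∑' J, ν (Bd J)) ≠ ∞ := by
    have h1 : ∑' J, ν (Bd J) ≤ ∑' J : ℕ, ENNReal.ofReal (2 * CD * (1 / ((J : ℝ) + 1) ^ 2)) := by
      refine ENNReal.tsum_le_tsum fun J => ?_
      rw [← ofReal_measureReal (measure_ne_top ν (Bd J))]
      exact ENNReal.ofReal_le_ofReal (hreal J)
    exact ne_top_of_le_ne_top hsum.tsum_ofReal_ne_top h1
  filter_upwards [ae_eventually_notMem hfin] with ω hω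
  filter_upwards [hω, eventually_ge_atTop J0] with J hJ hJ'
  exact hgood J ω hJ' hJ

end Pool.Agent.Q176.EP
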